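import Pool.Agent.P.MP_8e22c2_al.TwoAll

set_option autoImplicit false

namespace Pool.Agent.Results.MP_8e22c2_al.TwoShifts

/-- Let `α` be an infinite basis and `σ` a free shift of it (in coordinates `α ≃ ℤ × α` it adds
one to the first coordinate).  Every automorphism of the free group on `α` is a product of two
conjugates of the automorphism induced by `σ`. -/
theorem result :
    ∀ (α : Type) [Infinite α] (σ : Equiv.Perm α) (c : α ≃ ℤ × α),
      (∀ x, c (σ x) = ((c x).1 + 1, (c x).2)) →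
      ∀ φ : MulAut (FreeGroup α), ∃ a b : MulAut (FreeGroup α),
        φ = (a * (FreeGroup.freeGroupCongr σ : MulAut (FreeGroup α)) * a⁻¹) *
          (b * (FreeGroup.freeGroupCongr σ : MulAut (FreeGroup α)) * b⁻¹) := by
  intro α _ σ c hc φ
  have hσ : σ = Pool.Agent.P.MP_8e22c2_al.T2.shiftOf c := by
    ext x
    apply c.injective
    rw [hc]
    simp [Pool.Agent.P.MP_8e22c2_al.T2.shiftOf, Prod.map]
  obtain ⟨a, b, ha, hb, h⟩ := Pool.Agent.P.MP_8e22c2_al.T2.two_shifts c φ
  obtain ⟨a', ha'⟩ := isConj_iff.1 ha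
  obtain ⟨b', hb'⟩ := isConj_iff.1 hb
  refine ⟨a', b', ?_⟩
  rw [h, ← ha', ← hb', hσ]
  rfl

end Pool.Agent.Results.MP_8e22c2_al.TwoShifts
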